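import Pool.Agent.helper73.TF.Spec

set_option autoImplicit false

namespace Pool.Agent.TF

open Matrix Pool.Agent.H48SL
open scoped Pointwise

theorem CNT_countable (n : ℕ) : Countable (SLZ n) := by
  have h : Function.Injective (fun g : SLZ n => (g : Matrix (Fin n) (Fin n) ℤ)) :=
    fun a b hab => Subtype.ext hab
  have : Countable (Matrix (Fin n) (Fin n) ℤ) := by
    unfold Matrix
    infer_instance
  exact h.countable

theorem CNT : CNT_stmt := by
  intro n x
  unfold KK
  apply Set.Countable.union
  · have : Countable (SLZ n) := CNT_countable n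
    have h : {M | ∃ g : SLZ n, M = pr (cm g *ᵥ x)} = Set.range fun g : SLZ n => pr (cm g *ᵥ x) := by
      ext M
      exact ⟨fun ⟨g, hg⟩ => ⟨g, hg.symm⟩, fun ⟨g, hg⟩ => ⟨g, hg.symm⟩⟩
    rw [h]
    exact Set.countable_range _
  · apply (Set.countable_range fun v : Fin n → ℤ => pr (cv v)).mono
    rintro M ⟨v, _, hM⟩
    exact ⟨v, hM.symm⟩

end Pool.Agent.TF
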